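import Pool.Agent.LamGold.R3

set_option autoImplicit false

/-!
# Equivariance under all `m ≤ √q`, elements `≤ √(q/2)` excluded

This is module R4 of LamGold (helper88) with the wider exclusion range `2 L² ≤ q`.
-/

namespace Pool.Agent.H78.Strict

open Pool.Agent.LamGold

variable {q L : ℕ} {g : ℕ → ℤ}

theorem lTT_prime (W : WL q L g) (hqp : q.Prime) (hL : 160 * L < q) (hL2 : 2 * (L * L) ≤ q)
    {p : ℕ} (hp : p.Prime) (hp5 : 5 ≤ p) (hpq : p * p ≤ q)
    (ih : ∀ m, 0 < m → m < p → TT q (HH q L g) m) : TT q (HH q L g) p := by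
  have h5pq : 5 * p ≤ q := le_trans (Nat.mul_le_mul_right p hp5) hpq
  have hq2 : q % 2 = 1 := by
    rcases hqp.eq_two_or_odd with h | h
    · omega
    · exact h
  have hq0 : 0 < q := by omega
  have t2 : TT q (HH q L g) 2 := ih 2 (by norm_num) (by omega)
  have hp2 : p % 2 = 1 := by
    rcases hp.eq_two_or_odd with h | h
    · omega
    · exact h
  have hp3 : p % 3 ≠ 0 := by
    intro h
    have := (Nat.prime_dvd_prime_iff_eq Nat.prime_three hp).1 (Nat.dvd_of_mod_eq_zero h)
    omega
  apply TT_of_descent hq2
  intro b hb hbq hbad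
  have hqb : ¬ q ∣ b := fun h => by have := Nat.le_of_dvd hb h; omega
  have ecast : ((p : ℕ) : ZMod q) * (b : ZMod q) = ((p * b : ℕ) : ZMod q) := by
    push_cast; ring
  have h5b : 5 * b ≤ p * b := Nat.mul_le_mul_right b hp5
  -- reduce to `p b < q`
  rcases Nat.lt_or_ge q (p * b) with hpb | hpb
  · obtain ⟨k, i, hk0, hkp, hki⟩ := dirichlet (q := q) (b := b) (p := p) (by omega) hq0
    have hqk : ¬ q ∣ k := fun h => by have := Nat.le_of_dvd hk0 h; omega
    have hne : (k : ℤ) * b - i * q ≠ 0 := by
      intro h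
      have h1 : k * b = i * q := by
        have : ((k * b : ℕ) : ℤ) = ((i * q : ℕ) : ℤ) := by push_cast; linarith
        exact_mod_cast this
      have h2 : q ∣ k * b := ⟨i, by rw [h1]; ring⟩
      rcases (Nat.Prime.dvd_mul hqp).1 h2 with h | h
      · exact hqk h
      · exact hqb h
    refine ⟨Int.natAbs ((k : ℤ) * b - i * q), Int.natAbs_pos.2 hne, ?_, ?_⟩
    · have : p * Int.natAbs ((k : ℤ) * b - i * q) < p * b := lt_of_le_of_lt hki hpb
      exact lt_of_mul_lt_mul_left this (Nat.zero_le _)
    · rcases Int.natAbs_eq ((k : ℤ) * b - i * q) with h | h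
      · apply hbad.nat_sub (i := i) (k := k) hq2 (ih k hk0 hkp)
        have : ((k * b : ℕ) : ℤ) = ((i * q + Int.natAbs ((k : ℤ) * b - i * q) : ℕ) : ℤ) := by
          push_cast
          rw [← Int.natCast_natAbs]
          linarith
        exact_mod_cast this
      · apply hbad.nat_add (i := i) (k := k) hq2 (ih k hk0 hkp)
        have : ((k * b + Int.natAbs ((k : ℤ) * b - i * q) : ℕ) : ℤ) = ((i * q : ℕ) : ℤ) := by
          push_cast
          rw [← Int.natCast_natAbs]
          linarith
        exact_mod_cast this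
  have hpb' : p * b < q := by
    rcases hpb.lt_or_eq with h | h
    · exact h
    · exfalso
      rcases (Nat.dvd_prime hqp).1 ⟨b, h.symm⟩ with h1 | h1
      · omega
      · omega
  have hpb0 : 0 < p * b := Nat.mul_pos (by omega) hb
  -- good zone
  rcases Nat.lt_or_ge (2 * (p * b) + 3 * L) q with hg | hg
  · exfalso
    apply hbad
    rw [ecast, FH_lo hq0 hpb0 hg, FH_lo hq0 hb (by omega), W.mul p b (by omega) hb]
  -- a factor `r < p` of `b` makes `b` good when `p b / r` is far from `q / 2`
  have hgood : ∀ r b' : ℕ, 0 < r → r < p → b = r * b' → 2 * (p * b') + 3 * L < q → False := by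
    intro r b' hr0 hrp hbr hfar
    apply hbad
    have hb0' : 0 < b' := Nat.pos_of_ne_zero (by rintro rfl; omega)
    have e : ((p : ℕ) : ZMod q) * (b : ZMod q) = ((r : ℕ) : ZMod q) * ((p * b' : ℕ) : ZMod q) := by
      rw [hbr]; push_cast; ring
    have : 0 < p * b' := Nat.mul_pos (by omega) hb0'
    rw [e, ih r hr0 hrp, FH_lo hq0 this hfar, FH_lo hq0 hb (by omega), hbr,
      W.mul r b' hr0 hb0', W.mul p b' (by omega) hb0']
    ring
  -- halves
  have hhalf : b % 2 = 1 → ∀ t : ℤ, 2 * ((p * b : ℕ) : ℤ) = q + t → |t| < b →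
      ∃ r : ℕ, 0 < r ∧ r < b ∧ Bad q (HH q L g) p (r : ZMod q) := by
    intro hb2 t ht htb
    rw [abs_lt] at htb
    have h3 : (2 * p + 1) % 3 = 0 ∨ (2 * p - 1) % 3 = 0 := by
      have e1 : p % 3 = 1 ∨ p % 3 = 2 := by omega
      rcases e1 with e1 | e1
      · left; omega
      · right; omega
    rcases h3 with h3 | h3
    · obtain ⟨m, hm⟩ : ∃ m, 2 * p + 1 = 3 * m := ⟨(2 * p + 1) / 3, by omega⟩
      have tm : TT q (HH q L g) (2 * p + 1) := by
        rw [hm]
        exact TT_mul (by norm_num) (by omega) (ih 3 (by norm_num) (by omega))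
          (ih m (by omega) (by omega))
      have e1 : (2 * p + 1) * b = 2 * (p * b) + b := by ring
      obtain ⟨r, hr⟩ : ∃ r, (2 * p + 1) * b = 1 * q + 2 * r :=
        ⟨((2 * p + 1) * b - q) / 2, by omega⟩
      refine ⟨r, by omega, by omega, ?_⟩
      have h2 : Bad q (HH q L g) p ((2 * r : ℕ) : ZMod q) := hbad.nat_sub hq2 tm hr
      have h3 : Bad q (HH q L g) p (((2 : ℕ) : ZMod q) * (r : ZMod q)) := by
        have : ((2 * r : ℕ) : ZMod q) = ((2 : ℕ) : ZMod q) * (r : ZMod q) := by push_cast; ring
        rwa [this] at h2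
      exact h3.div t2
    · obtain ⟨m, hm⟩ : ∃ m, 2 * p - 1 = 3 * m := ⟨(2 * p - 1) / 3, by omega⟩
      have tm : TT q (HH q L g) (2 * p - 1) := by
        rw [hm]
        exact TT_mul (by norm_num) (by omega) (ih 3 (by norm_num) (by omega))
          (ih m (by omega) (by omega))
      have e1 : (2 * p - 1) * b + b = 2 * (p * b) := by
        rw [← Nat.succ_mul, show (2 * p - 1).succ = 2 * p by omega, mul_assoc]
      obtain ⟨r, hr⟩ : ∃ r, (2 * p - 1) * b + 2 * r = 1 * q :=
        ⟨(q - (2 * p - 1) * b) / 2, by omega⟩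
      refine ⟨r, by omega, by omega, ?_⟩
      have h2 : Bad q (HH q L g) p ((2 * r : ℕ) : ZMod q) := hbad.nat_add hq2 tm hr
      have h3 : Bad q (HH q L g) p (((2 : ℕ) : ZMod q) * (r : ZMod q)) := by
        have : ((2 * r : ℕ) : ZMod q) = ((2 : ℕ) : ZMod q) * (r : ZMod q) := by push_cast; ring
        rwa [this] at h2
      exact h3.div t2
  by_cases hz : 2 * (p * b) ≤ q + 3 * L
  · -- the zone near `q / 2`
    have hb1 : b ≠ 1 := by rintro rfl; omega
    have hmf : p ≤ b.minFac := by
      by_contra hlt
      push Not at hlt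
      obtain ⟨b', hb'⟩ := Nat.minFac_dvd b
      have hr2 : 2 ≤ b.minFac := (Nat.minFac_prime hb1).two_le
      refine hgood b.minFac b' (by omega) hlt hb' ?_
      have h1 : 2 * (p * b') ≤ p * b := by
        calc 2 * (p * b') = p * (2 * b') := by ring
          _ ≤ p * (b.minFac * b') := by gcongr
          _ = p * b := by rw [← hb']
      omega
    have hpb2 : p ≤ b := le_trans hmf (Nat.minFac_le hb)
    have hb2 : b % 2 = 1 := by
      by_contra h
      have h2 : 2 ∣ b := by omega
      have := Nat.minFac_le_of_dvd (le_refl 2) h2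
      omega
    have hbL : L ≤ b := by
      by_contra hcon
      push Not at hcon
      have h1 : p * b ≤ b * b := Nat.mul_le_mul_right b hpb2
      have h2 : b * b + 2 * b + 1 ≤ L * L := by
        have : (b + 1) * (b + 1) ≤ L * L := Nat.mul_le_mul hcon hcon
        calc b * b + 2 * b + 1 = (b + 1) * (b + 1) := by ring
          _ ≤ L * L := this
      have h3 : 4 ≤ L := by omega
      have h4 : q ≤ 2 * (b * b) + 3 * L := by omega
      obtain ⟨c, hc⟩ : ∃ c, L = b + 1 + c := ⟨L - (b + 1), by omega⟩
      subst hc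
      nlinarith
    obtain ⟨t, ht⟩ : ∃ t : ℤ, 2 * ((p * b : ℕ) : ℤ) = q + t := ⟨2 * ((p * b : ℕ) : ℤ) - q, by ring⟩
    rcases lt_or_ge |t| (b : ℤ) with h1 | h1
    · exact hhalf hb2 t ht h1
    · have e1 : (2 * (p + 1)) * b = 2 * (p * b) + 2 * b := by ring
      have e2 : (2 * (p - 1)) * b + 2 * b = 2 * (p * b) := by
        rw [← Nat.add_mul, show 2 * (p - 1) + 2 = 2 * p by omega, mul_assoc]
      have tp : TT q (HH q L g) (2 * (p + 1)) := by
        have : 2 * (p + 1) = 2 * (2 * ((p + 1) / 2)) := by omega
        rw [this]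
        exact TT_mul (by norm_num) (by omega) t2
          (TT_mul (by norm_num) (by omega) t2 (ih _ (by omega) (by omega)))
      have tm : TT q (HH q L g) (2 * (p - 1)) :=
        TT_mul (by norm_num) (by omega) t2 (ih _ (by omega) (by omega))
      rcases le_total 0 t with h0 | h0
      · rw [abs_of_nonneg h0] at h1
        -- `2 (p - 1) b - q = t - 2 b`
        rcases lt_or_ge t (2 * b : ℤ) with h2 | h2
        · obtain ⟨r, hr⟩ : ∃ r, (2 * (p - 1)) * b + r = 1 * q :=
            ⟨q - (2 * (p - 1)) * b, by omega⟩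
          have hrb : r ≠ b := by
            intro h
            subst h
            -- q = (2 p - 1) r
            have h3 : r * (2 * p - 1) = q := by
              have : (2 * p - 1) * r + r = 2 * (p * r) := by
                rw [← Nat.succ_mul, show (2 * p - 1).succ = 2 * p by omega, mul_assoc]
              rw [mul_comm]; omega
            rcases (Nat.dvd_prime hqp).1 ⟨_, h3.symm⟩ with h4 | h4
            · exact hb1 h4
            · omega
          exact ⟨r, by omega, by omega, hbad.nat_add hq2 tm hr⟩
        · obtain ⟨r, hr⟩ : ∃ r, (2 * (p - 1)) * b = 1 * q + r :=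
            ⟨(2 * (p - 1)) * b - q, by omega⟩
          have hrb : r ≠ b := by
            intro h
            subst h
            have h3 : r * (2 * p - 3) = q := by
              have : (2 * p - 3) * r + 3 * r = 2 * (p * r) := by
                rw [← Nat.add_mul, show 2 * p - 3 + 3 = 2 * p by omega, mul_assoc]
              rw [mul_comm]; omega
            rcases (Nat.dvd_prime hqp).1 ⟨_, h3.symm⟩ with h4 | h4
            · exact hb1 h4
            · omega
          exact ⟨r, by omega, by omega, hbad.nat_sub hq2 tm hr⟩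
      · rw [abs_of_nonpos h0] at h1
        rcases lt_or_ge (-t) (2 * b : ℤ) with h2 | h2
        · obtain ⟨r, hr⟩ : ∃ r, (2 * (p + 1)) * b = 1 * q + r :=
            ⟨(2 * (p + 1)) * b - q, by omega⟩
          have hrb : r ≠ b := by
            intro h
            subst h
            have h3 : r * (2 * p + 1) = q := by
              have : (2 * p + 1) * r = 2 * (p * r) + r := by ring
              rw [mul_comm]; omega
            rcases (Nat.dvd_prime hqp).1 ⟨_, h3.symm⟩ with h4 | h4
            · exact hb1 h4
            · omega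
          exact ⟨r, by omega, by omega, hbad.nat_sub hq2 tp hr⟩
        · obtain ⟨r, hr⟩ : ∃ r, (2 * (p + 1)) * b + r = 1 * q :=
            ⟨q - (2 * (p + 1)) * b, by omega⟩
          have hrb : r ≠ b := by
            intro h
            subst h
            have h3 : r * (2 * p + 3) = q := by
              have : (2 * p + 3) * r = 2 * (p * r) + 3 * r := by ring
              rw [mul_comm]; omega
            rcases (Nat.dvd_prime hqp).1 ⟨_, h3.symm⟩ with h4 | h4
            · exact hb1 h4
            · omega
          exact ⟨r, by omega, by omega, hbad.nat_add hq2 tp hr⟩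
  · push Not at hz
    obtain ⟨c, hc⟩ : ∃ c, c = q / b := ⟨_, rfl⟩
    have hc1 : c * b ≤ q := by rw [hc]; exact Nat.div_mul_le_self q b
    have hc2 : q < (c + 1) * b := by
      rw [hc]; exact Nat.lt_mul_of_div_lt (Nat.lt_succ_self _) hb
    have hpc : p ≤ c := by
      have : p * b < (c + 1) * b := lt_trans hpb' hc2
      have := lt_of_mul_lt_mul_right this (Nat.zero_le _)
      omega
    have hcp : c < 2 * p := by
      have : c * b < (2 * p) * b := by
        calc c * b ≤ q := hc1
          _ < 2 * (p * b) := by omega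
          _ = (2 * p) * b := by ring
      exact lt_of_mul_lt_mul_right this (Nat.zero_le _)
    have hcb : c * b < q := by
      rcases hc1.lt_or_eq with h | h
      · exact h
      · exfalso
        rcases (Nat.dvd_prime hqp).1 ⟨c, by rw [mul_comm]; exact h.symm⟩ with h1 | h1
        · subst h1; omega
        · omega
    have hc2' : (c + 1) * b = c * b + b := by ring
    rcases Nat.even_or_odd' c with ⟨c', hc' | hc'⟩
    · have tc : TT q (HH q L g) c := by
        rw [hc']
        exact TT_mul (by norm_num) (by omega) t2 (ih c' (by omega) (by omega))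
      exact ⟨q - c * b, by omega, by omega, hbad.nat_add (i := 1) hq2 tc (by omega)⟩
    · rcases Nat.lt_or_ge (c + 1) (2 * p) with h1 | h1
      · have tc : TT q (HH q L g) (c + 1) := by
          rw [show c + 1 = 2 * (c' + 1) by omega]
          exact TT_mul (by norm_num) (by omega) t2 (ih (c' + 1) (by omega) (by omega))
        exact ⟨(c + 1) * b - q, by omega, by omega, hbad.nat_sub (i := 1) hq2 tc (by omega)⟩
      · have hc3 : c + 1 = 2 * p := by omega
        have e1 : (c + 1) * b = 2 * (p * b) := by rw [hc3]; ring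
        have hb2 : b % 2 = 1 := by
          by_contra h
          obtain ⟨b', hb'⟩ : ∃ b', b = 2 * b' := ⟨b / 2, by omega⟩
          refine hgood 2 b' (by norm_num) (by omega) hb' ?_
          have : 2 * (p * b') = p * b := by rw [hb']; ring
          omega
        refine hhalf hb2 (2 * ((p * b : ℕ) : ℤ) - q) (by ring) ?_
        rw [abs_lt]
        constructor <;> omega

theorem lTT_all (W : WL q L g) (hqp : q.Prime) (hq5 : 5 < q) (hL : 160 * L < q)
    (hL2 : 2 * (L * L) ≤ q) : ∀ m, 0 < m → m * m ≤ q → TT q (HH q L g) m := by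
  have hq2 : q % 2 = 1 := by
    rcases hqp.eq_two_or_odd with h | h
    · omega
    · exact h
  have hq3 : q % 3 ≠ 0 := by
    intro h
    have := (Nat.prime_dvd_prime_iff_eq Nat.prime_three hqp).1 (Nat.dvd_of_mod_eq_zero h)
    omega
  have hq5' : q % 5 ≠ 0 := by
    intro h
    have := (Nat.prime_dvd_prime_iff_eq Nat.prime_five hqp).1 (Nat.dvd_of_mod_eq_zero h)
    omega
  intro m
  induction m using Nat.strong_induction_on with
  | _ m ih =>
    intro hm hmq
    have hmono : ∀ k, k < m → k * k ≤ q := fun k hk =>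
      le_trans (Nat.mul_le_mul hk.le hk.le) hmq
    rcases Nat.lt_or_ge m 2 with h1 | h1
    · have : m = 1 := by omega
      subst this
      exact TT_one
    by_cases hp : m.Prime
    · rcases Nat.lt_or_ge m 5 with h5 | h5
      · have : m = 2 ∨ m = 3 := by
          have : m ≠ 4 := by rintro rfl; revert hp; decide
          omega
        rcases this with rfl | rfl
        · exact lTT_two W (by omega) hq2 hq3
        · exact lTT_three W hL hq2 hq3 hq5'
      · exact lTT_prime W hqp hL hL2 hp h5 hmq (fun k hk hkm => ih k hkm hk (hmono k hkm))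
    · obtain ⟨u, v, hu, hv, huv⟩ := Nat.not_prime_iff_exists_mul_eq h1 |>.1 hp
      have hu0 : 0 < u := Nat.pos_of_ne_zero (by rintro rfl; omega)
      have hv0 : 0 < v := Nat.pos_of_ne_zero (by rintro rfl; omega)
      rw [← huv]
      exact TT_mul hu0 hv0 (ih u hu hu0 (hmono u hu)) (ih v hv hv0 (hmono v hv))

end Pool.Agent.H78.Strict
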