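import Pool.Agent.LamGold.Basic

set_option autoImplicit false

/-!
# Small cases for the strict range
-/

namespace Pool.Agent.H78.Strict

open Pool.Agent.LamGold

/-- parity of the number of prime factors by trial division; `some true` means even. -/
def lp : ℕ → ℕ → ℕ → Option Bool
  | 0, _, _ => none
  | k + 1, d, n =>
    if n < 2 then some true
    else if n < d * d then some false
    else if n % d = 0 then (lp k d (n / d)).map (fun b => !b)
    else lp k (d + 1) n

theorem lp_spec :
    ∀ k d n b, 0 < n → 2 ≤ d → (∀ q : ℕ, q.Prime → q ∣ n → d ≤ q) → lp k d n = some b →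
      fs n = if b = true then 1 else -1 := by
  intro k
  induction k with
  | zero => intro d n b _ _ _ h; simp [lp] at h
  | succ k ih =>
    intro d n b hn hd hq h
    rw [lp] at h
    split_ifs at h with h1 h2 h3
    · have : n = 1 := by omega
      subst this
      simp only [Option.some.injEq] at h
      rw [← h, fs_one]
      simp
    · simp only [Option.some.injEq] at h
      rw [← h]
      have hp : n.Prime := by
        by_contra hnp
        have hmin := Nat.minFac_sq_le_self hn hnp
        have hmp : n.minFac.Prime := Nat.minFac_prime (by omega)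
        have := hq _ hmp (Nat.minFac_dvd n)
        nlinarith
      rw [fs_prime hp]
      simp
    · have hdn : d ∣ n := Nat.dvd_of_mod_eq_zero h3
      obtain ⟨m, hm⟩ := hdn
      have hm0 : 0 < m := Nat.pos_of_ne_zero (by rintro rfl; simp at hm; omega)
      have hdp : d.Prime := by
        have h4 : d.minFac.Prime := Nat.minFac_prime (by omega)
        have h5 := hq _ h4 ((Nat.minFac_dvd d).trans ⟨m, hm⟩)
        have h6 := Nat.minFac_le (n := d) (by omega)
        have : d.minFac = d := by omega
        rw [← this]
        exact h4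
      have hnd : n / d = m := by rw [hm]; exact Nat.mul_div_cancel_left m (by omega)
      rw [hnd] at h
      rw [Option.map_eq_some_iff] at h
      obtain ⟨b', hb', hbb⟩ := h
      have := ih d m b' hm0 hd (fun q h7 h8 => hq q h7 (h8.trans ⟨d, by rw [hm]; ring⟩)) hb'
      rw [hm, fs_mul (by omega) hm0, fs_prime hdp, this, ← hbb]
      cases b' <;> simp
    · apply ih (d + 1) n b hn (by omega) _ h
      intro q h4 h5
      have h6 := hq q h4 h5
      rcases Nat.lt_or_ge d q with h7 | h7
      · exact h7
      · exfalso
        apply h3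
        have : q = d := by omega
        rw [← this]
        exact Nat.mod_eq_zero_of_dvd h5

/-- certified sign test. -/
def sgn1 (b : Bool) (n : ℕ) : Bool := (lp 140 2 n) == some b

theorem sgn1_spec {b : Bool} {n : ℕ} (hn : 0 < n) (h : sgn1 b n = true) :
    fs n = if b = true then 1 else -1 := by
  unfold sgn1 at h
  have h1 : lp 140 2 n = some b := by simpa using h
  exact lp_spec 140 2 n b hn le_rfl (fun q hq _ => hq.two_le) h1

/-- search for `u < N - u`, signs `b`, `B < c u^2`. -/
def srch (b : Bool) (c B N : ℕ) : ℕ → ℕ → Bool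
  | 0, _ => false
  | k + 1, u =>
    if N ≤ 2 * u then false
    else if decide (B < c * (u * u)) && (sgn1 b u && sgn1 b (N - u)) then true
    else srch b c B N k (u + 1)

theorem srch_spec {b : Bool} {c B N : ℕ} : ∀ k u, 0 < u → srch b c B N k u = true →
    ∃ x, 0 < x ∧ 2 * x < N ∧ B < c * (x * x) ∧ fs x = (if b = true then 1 else -1) ∧
      fs (N - x) = (if b = true then 1 else -1) := by
  intro k
  induction k with
  | zero => intro u _ h; simp [srch] at h
  | succ k ih =>
    intro u hu h
    rw [srch] at h
    split_ifs at h with h1 h2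
    · rw [Bool.and_eq_true, Bool.and_eq_true, decide_eq_true_eq] at h2
      obtain ⟨h3, h4, h5⟩ := h2
      exact ⟨u, hu, by omega, h3, sgn1_spec hu h4, sgn1_spec (by omega) h5⟩
    · exact ih (u + 1) (by omega) h

theorem small1_bool :
    (List.range 600).all (fun i => srch false 1 (2 * i + 16) (2 * i + 16) 200 1) = true := by
  decide +kernel

theorem small1 {N : ℕ} (h16 : 16 ≤ N) (hN : N % 2 = 0) (hlt : N < 1216) :
    ∃ x, 0 < x ∧ 2 * x < N ∧ N < x * x ∧ fs x = -1 ∧ fs (N - x) = -1 := by
  have h := small1_bool
  rw [List.all_eq_true] at h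
  have := h ((N - 16) / 2) (List.mem_range.2 (by omega))
  rw [show 2 * ((N - 16) / 2) + 16 = N by omega] at this
  obtain ⟨x, h1, h2, h3, h4, h5⟩ := srch_spec _ _ (by norm_num) this
  exact ⟨x, h1, h2, by omega, by simpa using h4, by simpa using h5⟩

/-- The check for the modulus `q`. -/
def chk (q : ℕ) : Bool :=
  (decide (13 < q) &&
    (q % 2 == 0 || q % 3 == 0 || q % 5 == 0 || q % 7 == 0 || q % 11 == 0 || q % 13 == 0)) ||
    srch true 2 q q 140 1

theorem chk_all : (List.range 12784).all (fun i => chk (i + 18)) = true := by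
  decide +kernel

theorem small_witness {q : ℕ} (hq : q.Prime) (h18 : 18 ≤ q) (h : q < 12802) :
    ∃ x, 0 < x ∧ 2 * x < q ∧ q < 2 * (x * x) ∧ fs x = 1 ∧ fs (q - x) = 1 := by
  have h1 := List.all_eq_true.1 chk_all (q - 18) (List.mem_range.2 (by omega))
  rw [show q - 18 + 18 = q by omega] at h1
  unfold chk at h1
  rw [Bool.or_eq_true] at h1
  rcases h1 with h2 | h2
  · exfalso
    simp only [Bool.and_eq_true, Bool.or_eq_true, decide_eq_true_eq, beq_iff_eq] at h2
    obtain ⟨h13, h2⟩ := h2
    have hk : ∀ r : ℕ, 1 < r → r ≤ 13 → q % r = 0 → False := by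
      intro r hr1 hr13 hr
      rcases (Nat.dvd_prime hq).1 (Nat.dvd_of_mod_eq_zero hr) with h | h <;> omega
    rcases h2 with ((((h2 | h2) | h2) | h2) | h2) | h2
    · exact hk 2 (by norm_num) (by norm_num) h2
    · exact hk 3 (by norm_num) (by norm_num) h2
    · exact hk 5 (by norm_num) (by norm_num) h2
    · exact hk 7 (by norm_num) (by norm_num) h2
    · exact hk 11 (by norm_num) (by norm_num) h2
    · exact hk 13 (by norm_num) (by norm_num) h2
  · obtain ⟨x, h1, h2, h3, h4, h5⟩ := srch_spec _ _ (by norm_num) h2
    exact ⟨x, h1, h2, h3, by simpa using h4, by simpa using h5⟩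

end Pool.Agent.H78.Strict
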