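import Pool.Agent.H78.Strict.S2
import Pool.Agent.H78.Strict.S3
import Pool.Agent.LamGold.R7

set_option autoImplicit false

/-!
# Two distinct summands larger than `√(2n)`
-/

namespace Pool.Agent.H78.Strict

open Pool.Agent.LamGold

/-- no two distinct admissible summands. -/
def NoD (n : ℕ) : Prop :=
  ∀ a b : ℕ, a + b = 2 * n → a ≠ b → 2 * n < a * a → 2 * n < b * b → fs a = 1 ∨ fs b = 1

theorem strict_prime {n d q : ℕ} (hq : q.Prime) (h5 : 5 ≤ q) (hn : 608 ≤ n) (hN : 2 * n = d * q)
    (hfn : fs n = -1) (h : NoD n) : False := by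
  have hd0 : 0 < d := Nat.pos_of_ne_zero (by rintro rfl; omega)
  have hqodd : q % 2 = 1 := by
    rcases hq.eq_two_or_odd with e | e
    · omega
    · exact e
  have hdeven : d % 2 = 0 := by
    have h1 : (d * q) % 2 = 0 := by omega
    rw [Nat.mul_mod, hqodd] at h1
    omega
  obtain ⟨e, he⟩ : ∃ e, d = 2 * e := ⟨d / 2, by omega⟩
  have he0 : 0 < e := by omega
  have hne : n = e * q := by
    have h1 : 2 * n = 2 * (e * q) := by rw [hN, he]; ring
    omega
  have hfe : fs e = 1 := by
    rw [hne, fs_mul he0 hq.pos, fs_prime hq] at hfn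
    omega
  have hfd : fs d = -1 := by
    rw [he, fs_mul two_pos he0, fs_two, hfe]; ring
  have hdq : d ≠ q := by omega
  have hne' : ∀ x y : ℕ, x + y = q → d * x ≠ d * y := by
    intro x y hxy h1
    have := Nat.eq_of_mul_eq_mul_left hd0 h1
    omega
  rcases lt_or_gt_of_ne hdq with hlt | hgt
  · -- `d < q`
    have hsq : ∀ x : ℕ, q < 2 * (x * x) → 2 * n < (d * x) * (d * x) := by
      intro x hx
      calc 2 * n = d * q := hN
        _ < d * (2 * (x * x)) := Nat.mul_lt_mul_of_pos_left hx hd0
        _ ≤ d * (d * (x * x)) := Nat.mul_le_mul_left _ (Nat.mul_le_mul_right _ (by omega))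
        _ = (d * x) * (d * x) := by ring
    have hq18 : 18 ≤ q := by
      by_contra hcon
      push Not at hcon
      have : d * q ≤ 17 * 17 := Nat.mul_le_mul (by omega) (by omega)
      omega
    by_cases hbig : q < 12802
    · obtain ⟨x, hx0, hx1, hx2, hx3, hx4⟩ := small_witness hq hq18 hbig
      have hy : x ≤ q - x := by omega
      have hy1 : q < 2 * ((q - x) * (q - x)) :=
        lt_of_lt_of_le hx2 (Nat.mul_le_mul_left 2 (Nat.mul_le_mul hy hy))
      have hsum : d * x + d * (q - x) = 2 * n := by
        rw [← mul_add, hN]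
        congr 1
        omega
      rcases h _ _ hsum (hne' _ _ (by omega)) (hsq x hx2) (hsq _ hy1) with h2 | h2
      · rw [fs_mul hd0 hx0, hfd, hx3] at h2
        omega
      · rw [fs_mul hd0 (by omega), hfd, hx4] at h2
        omega
    · obtain ⟨L, hL⟩ : ∃ L, L = Nat.sqrt (q / 2) := ⟨_, rfl⟩
      have hL1 : L * L ≤ q / 2 := by rw [hL]; exact Nat.sqrt_le _
      have hL2 : q / 2 < (L + 1) * (L + 1) := by rw [hL]; exact Nat.lt_succ_sqrt _
      have hL3 : 2 * (L * L) ≤ q := by omega
      have hL4 : 160 * L < q := by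
        by_contra hcon
        push Not at hcon
        have h1 : 2 * (L * L) ≤ 160 * L := le_trans hL3 hcon
        have h2 : L ≤ 80 := by
          by_contra h3
          push Not at h3
          have : 81 * L ≤ L * L := Nat.mul_le_mul_right L h3
          omega
        omega
      have hLx : ∀ x : ℕ, L < x → q < 2 * (x * x) := by
        intro x hx
        have : (L + 1) * (L + 1) ≤ x * x := Nat.mul_le_mul hx hx
        omega
      have W : WL q L (fun x => fs (d * x)) := by
        refine ⟨?_, ?_, ?_⟩
        · intro m _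
          exact fs_val _
        · intro k m hk hm
          have e1 : d * (k * m) = k * (d * m) := by ring
          simp only [e1]
          exact fs_mul hk (Nat.mul_pos hd0 hm)
        · intro x y hx hy hxy
          exact h (d * x) (d * y) (by rw [← mul_add, hxy, hN]) (hne' _ _ hxy) (hsq x (hLx x hx))
            (hsq y (hLx y hy))
      exact lno_world hq (by omega) hL4 hL3 W
  · have W : World q (fun x => fs (d * x)) := by
      have hsq : ∀ x : ℕ, 0 < x → 2 * n < (d * x) * (d * x) := by
        intro x hx
        have hxx : 1 ≤ x * x := Nat.mul_pos hx hx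
        calc 2 * n = d * q := hN
          _ < d * d := Nat.mul_lt_mul_of_pos_left hgt hd0
          _ ≤ d * d * (x * x) := Nat.le_mul_of_pos_right _ hxx
          _ = (d * x) * (d * x) := by ring
      refine ⟨?_, ?_, ?_⟩
      · intro m _
        exact fs_val _
      · intro k m hk hm
        have e1 : d * (k * m) = k * (d * m) := by ring
        simp only [e1]
        exact fs_mul hk (Nat.mul_pos hd0 hm)
      · intro x y hx hy hxy
        exact h (d * x) (d * y) (by rw [← mul_add, hxy, hN]) (hne' _ _ hxy) (hsq x hx) (hsq y hy)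
    exact no_world_prime hq h5 W

theorem fs_eleven : fs 11 = -1 := fs_prime (by norm_num)

/-- For `n ≥ 8` there is `a < n` with `a > √(2n)` and an odd number of prime factors in `a` and
in `2n - a`. -/
theorem strict_exists {n : ℕ} (hn : 8 ≤ n) :
    ∃ a : ℕ, 2 * n < a * a ∧ a < n ∧ fs a = -1 ∧ fs (2 * n - a) = -1 := by
  rcases Nat.lt_or_ge n 608 with hsm | hbig
  · obtain ⟨x, h1, h2, h3, h4, h5⟩ := small1 (N := 2 * n) (by omega) (by omega) (by omega)
    exact ⟨x, h3, by omega, h4, h5⟩
  rcases fs_val n with hfn | hfn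
  · obtain ⟨a, b, h1, h2, h3, h4, h5⟩ := range_exists (n := n) (by omega)
    have hab : a ≠ b := by
      rintro rfl
      have : a = n := by omega
      rw [this] at h4
      omega
    rcases lt_or_gt_of_ne hab with h | h
    · exact ⟨a, h2, by omega, h4, by rw [show 2 * n - a = b by omega]; exact h5⟩
    · exact ⟨b, h3, by omega, h5, by rw [show 2 * n - b = a by omega]; exact h4⟩
  by_contra hcon
  push Not at hcon
  have h : NoD n := by
    intro a b h1 h0 h2 h3
    by_contra h4
    push Not at h4
    have ha : fs a = -1 := by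
      rcases fs_val a with e | e
      · exact (h4.1 e).elim
      · exact e
    have hb : fs b = -1 := by
      rcases fs_val b with e | e
      · exact (h4.2 e).elim
      · exact e
    rcases lt_or_gt_of_ne h0 with h | h
    · exact hcon a h2 (by omega) ha (by rw [show 2 * n - a = b by omega]; exact hb)
    · exact hcon b h3 (by omega) hb (by rw [show 2 * n - b = a by omega]; exact ha)
  have hp : ∀ p, p.Prime → p ∣ 2 * n → p < 5 := by
    intro p hp hpN
    by_contra h5
    push Not at h5
    obtain ⟨d, hd⟩ := hpN
    exact strict_prime (d := d) hp h5 hbig (by rw [hd]; ring) hfn h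
  obtain ⟨i, j, hij⟩ := exists_two_three (2 * n) (by omega) hp
  have hfN : fs (2 * n) = 1 := by
    rw [fs_mul two_pos (by omega), fs_two, hfn]; norm_num
  have h16 : ¬ 16 ∣ 2 * n := by
    rintro ⟨d, hd⟩
    have hd0 : 0 < d := by omega
    have hfd : fs d = 1 := by
      rw [hd, fs_mul (by norm_num) hd0, fs_sixteen] at hfN
      omega
    have h1 := h (5 * d) (11 * d) (by omega) (by omega) (by nlinarith) (by nlinarith)
    rw [fs_mul (by norm_num) hd0, fs_mul (by norm_num) hd0, fs_five, fs_eleven, hfd] at h1
    omega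
  have h9 : ¬ 9 ∣ 2 * n := by
    rintro ⟨d, hd⟩
    have hd0 : 0 < d := by omega
    have hfd : fs d = 1 := by
      rw [hd, fs_mul (by norm_num) hd0, fs_nine] at hfN
      omega
    have h1 := h (2 * d) (7 * d) (by omega) (by omega) (by nlinarith) (by nlinarith)
    rw [fs_mul (by norm_num) hd0, fs_mul (by norm_num) hd0, fs_two, fs_seven, hfd] at h1
    omega
  have hi : i < 4 := by
    by_contra hc
    push Not at hc
    apply h16
    rw [hij]
    exact Dvd.dvd.mul_right (pow_dvd_pow 2 hc) _
  have hj : j < 2 := by
    by_contra hc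
    push Not at hc
    apply h9
    rw [hij]
    exact Dvd.dvd.mul_left (pow_dvd_pow 3 hc) _
  interval_cases i <;> interval_cases j <;> omega

end Pool.Agent.H78.Strict
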